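import Pool.Agent.Lib.MP_5b4ede_co.Bij

set_option autoImplicit false

namespace Pool.Agent.Results.MP_5b4ede_co.MajEN

open Pool.Agent.Lib.MP_5b4ede_co

/-- `EN_{s,2}(123)[q] = q ^ (2 * choose s 2) * c_s(q)` for every `s ≥ 1`. -/
theorem result (s : ℕ) (hs : 1 ≤ s) :
    ENmaj s 2 = Polynomial.X ^ (2 * s.choose 2) * cat s := by
  apply IsFractionRing.injective (Polynomial ℤ) (FractionRing (Polynomial ℤ))
  refine main (q := algebraMap (Polynomial ℤ) (FractionRing (Polynomial ℤ)) Polynomial.X) ?_ _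
    rfl s hs
  intro h
  exact Polynomial.X_ne_zero
    (IsFractionRing.injective (Polynomial ℤ) (FractionRing (Polynomial ℤ)) (by rw [h, map_zero]))

end Pool.Agent.Results.MP_5b4ede_co.MajEN
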