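import Pool.Agent.Lib.MP_5b4ede_co.Std

open Finset Pool.Agent.Lib.MP_5b4ede_co

namespace Pool.Agent.Results.MP_5b4ede_co.PatternFamily

open Classical in
/-- Descent number and major index on the linear extensions of `EN_{s,t}`, `t = a + r + b`, that
avoid the pattern `pat a b`. -/
theorem result (s a r b : ℕ) (hs : 1 ≤ s) (hr : 2 ≤ r) (A : Type) [CommRing A] (x q : A) :
    ∑ π ∈ univ.filter (fun π : Equiv.Perm (Fin (s * (a + r + b))) =>
      IsLinExt s (a + r + b) π ∧ Avoids π (pat a b)), x ^ des π * q ^ maj π =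
    x ^ (s - 1) * q ^ ((a + r + b) * s.choose 2) *
      ∑ w ∈ univ.filter (IsWord s a r b), x ^ des w * q ^ maj w :=
  family x q hs (by omega)

open Classical in
/-- The same formula holds for `r = 1` (theorem `family`), where every linear extension avoids
the pattern; its case `t = 2`, `x = 1` is the identity for the pattern 123. -/
theorem two_columns (s : ℕ) (hs : 1 ≤ s) :
    ENmaj s 2 = Polynomial.X ^ (2 * s.choose 2) * cat s := by
  have e := family (a := 1) (b := 0) (1 : Polynomial ℤ) Polynomial.X hs le_rfl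
  simp only [one_pow, one_mul] at e
  have h1 : ∀ π : Equiv.Perm (Fin (s * 2)), IsLinExt s 2 π → Avoids123 π := by
    rintro π h ⟨i, j, l, hij, hjl, h2, h3⟩
    have key : ∀ u v : Fin (s * 2), u < v → π u < π v → (π u).val % 2 < (π v).val % 2 := by
      intro u v huv h4
      by_contra hc
      have h5 := h (π v) (π u) h4.ne' ⟨Nat.div_le_div_right h4.le, not_lt.1 hc⟩
      exact huv.not_gt (by simpa using h5)
    have := key i j hij h2
    have := key j l hjl h3
    omega
  have h2 : ENmaj s 2 = ∑ π ∈ univ.filter (fun π : Equiv.Perm (Fin (s * 2)) =>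
      IsLinExt s 2 π ∧ Avoids π (pat 1 0)), Polynomial.X ^ maj π := by
    refine sum_congr (filter_congr fun π _ => and_congr_right fun h =>
      iff_of_true (h1 π h) ?_) fun _ _ => rfl
    rintro ⟨u, hu, hp⟩
    exact h1 π h ⟨u 0, u 1, u 2, hu (by decide), hu (by decide), (hp 0 1).2 (by decide),
      (hp 1 2).2 (by decide)⟩
  set S : ℕ → Polynomial ℤ := fun n => ∑ w ∈ univ.filter (fun w : Fin n → Fin 2 =>
    (univ.filter fun i => w i = 0).card = s ∧ (univ.filter fun i => w i = 1).card = s ∧
      ∀ k : ℕ, (univ.filter fun i : Fin n => i.val < k ∧ w i = 1).card ≤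
        (univ.filter fun i : Fin n => i.val < k ∧ w i = 0).card), Polynomial.X ^ maj w with hS
  have h3 : cat s = S (2 * s) := sum_congr (filter_congr fun _ _ => Iff.rfl) fun _ _ => rfl
  rw [h2, h3, mul_comm 2 s]
  refine e.trans (congrArg _ (sum_congr (filter_congr fun (w : Fin (s * 2) → Fin 2) _ => ?_)
    fun _ _ => rfl))
  simp [IsWord, wt, Fin.forall_fin_two, and_assoc]

end Pool.Agent.Results.MP_5b4ede_co.PatternFamily
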